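import Pool.Agent.Helper71_HNF.Stmt
import Pool.Agent.Helper82_UN.Grz

/-!
# CAPX: the universally null capturing set of universes
-/

set_option autoImplicit false

namespace Pool.Agent.HNF.H82

open MeasureTheory Set

theorem hist_eq (u : Univ) (n : ℕ) : HNF.hist u n = ((List.range n).map u).reverse := by
  induction n with
  | zero => rfl
  | succ n ih =>
    rw [List.range_succ, List.map_append, List.reverse_append, ← ih]
    rfl

/-- CAPX -/
theorem capx : CapxStmt := by
  obtain ⟨X, hX, -, hH⟩ := Helper82UN.universes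
  refine ⟨X, fun μ h1 h2 => hX μ h1 h2, fun H => ?_⟩
  obtain ⟨u, hu, h⟩ := hH fun l => H l.reverse
  refine ⟨u, hu, fun l n₀ => ?_⟩
  obtain ⟨n, hn, h1, h2, h3⟩ := h l (n₀ + 1)
  obtain ⟨n, rfl⟩ : ∃ n', n = n' + 1 := ⟨n - 1, by omega⟩
  refine ⟨n, by omega, by simpa using h2, ?_⟩
  rw [hist_eq]
  exact h3

end Pool.Agent.HNF.H82
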